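import Mathlib
import Pool.Agent.H3.BI.Stm1

/-!
# Part CHN: the chain of the launches
-/

set_option autoImplicit false

open scoped ENNReal
open Finset MeasureTheory

namespace Pool.Agent.H10.BD

open Pool.Agent.H3.BI

section

variable {d : ℕ} [NeZero d] {ν : PMF ℕ} {Ω : Type} [mΩ : MeasurableSpace Ω] {P : Measure Ω}
  {X : ℕ → Ω → Finset (Site d)}

/-- The history `X 1, …, X t`. -/
def hist (X : ℕ → Ω → Finset (Site d)) (t : ℕ) (ω : Ω) : Fin t → Finset (Site d) :=
  fun i => X (i.1 + 1) ω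

theorem meas_hist (h : IsBIDLA ν P X) (t : ℕ) (S : Set (Fin t → Finset (Site d))) :
    MeasurableSet {ω | hist X t ω ∈ S} := by
  have e : {ω | hist X t ω ∈ S} = ⋃ g ∈ S, {ω | hist X t ω = g} := by
    ext ω
    simp
  rw [e]
  refine MeasurableSet.biUnion (Set.to_countable S) fun g _ => ?_
  have e2 : {ω | hist X t ω = g} = ⋂ i : Fin t, {ω | X (i.1 + 1) ω = g i} := by
    ext ω
    simp only [Set.mem_ofPred_eq, Set.mem_iInter]
    constructor
    · intro hh i
      rw [← hh]; rfl
    · intro hh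
      funext i
      exact hh i
  rw [e2]
  exact MeasurableSet.iInter fun i => h.meas _ _

theorem meas_prop (h : IsBIDLA ν P X) (t : ℕ) (G : Finset (Site d) → Prop) :
    MeasurableSet {ω | G (X t ω)} := by
  have e : {ω | G (X t ω)} = ⋃ g ∈ {A : Finset (Site d) | G A}, {ω | X t ω = g} := by
    ext ω
    simp
  rw [e]
  exact MeasurableSet.biUnion (Set.to_countable _) fun g _ => h.meas _ _

/-- Markov property for one history. -/
theorem markov_one (h : IsBIDLA ν P X) {t : ℕ} (g : Fin (t + 1) → Finset (Site d))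
    (B : Finset (Site d)) :
    P ({ω | hist X (t + 1) ω = g} ∩ {ω | X (t + 2) ω = B}) =
      P {ω | hist X (t + 1) ω = g} * launch ν (g (Fin.last t)) B := by
  set a : ℕ → Finset (Site d) := fun i =>
    if h1 : i - 1 < t + 1 then g ⟨i - 1, h1⟩ else B with ha
  have h0 : ∀ i (hi : i < t + 1), a (i + 1) = g ⟨i, hi⟩ := by
    intro i hi
    have h1 : i + 1 - 1 < t + 1 := by omega
    rw [ha]
    simp only [dif_pos h1]
    congr 1
  have h1 : a (t + 2) = B := by
    have h2 : ¬ (t + 2 - 1 < t + 1) := by omega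
    rw [ha]
    simp only [dif_neg h2]
  have e1 : {ω | hist X (t + 1) ω = g} = {ω | ∀ i, 1 ≤ i → i ≤ t + 1 → X i ω = a i} := by
    ext ω
    simp only [Set.mem_ofPred_eq]
    constructor
    · intro hh i hi1 hi2
      obtain ⟨j, rfl⟩ : ∃ j, i = j + 1 := ⟨i - 1, by omega⟩
      have hj : j < t + 1 := by omega
      rw [h0 j hj, ← hh]
      rfl
    · intro hh
      funext i
      have := hh (i.1 + 1) (by omega) (by have := i.2; omega)
      rw [h0 i.1 i.2] at this
      exact this
  have e2 : {ω | hist X (t + 1) ω = g} ∩ {ω | X (t + 2) ω = B} =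
      {ω | ∀ i, 1 ≤ i → i ≤ t + 1 + 1 → X i ω = a i} := by
    rw [e1]
    ext ω
    simp only [Set.mem_inter_iff, Set.mem_ofPred_eq]
    constructor
    · rintro ⟨hh, hB⟩ i hi1 hi2
      rcases Nat.lt_or_ge i (t + 2) with h3 | h3
      · exact hh i hi1 (by omega)
      · have : i = t + 2 := by omega
        rw [this, h1]
        exact hB
    · intro hh
      refine ⟨fun i hi1 hi2 => hh i hi1 (by omega), ?_⟩
      have := hh (t + 2) (by omega) (by omega)
      rw [h1] at this
      exact this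
  rw [e2, h.markov (t + 1) a (by omega), ← e1, show t + 1 + 1 = t + 2 from rfl, h1]
  have h3 : a (t + 1) = g (Fin.last t) := h0 t (by omega)
  rw [h3]

/-- Markov property for a set of histories. -/
theorem markov_set (h : IsBIDLA ν P X) {t : ℕ} (S : Set (Fin (t + 1) → Finset (Site d)))
    (A B : Finset (Site d)) :
    P ({ω | hist X (t + 1) ω ∈ S ∧ X (t + 1) ω = A} ∩ {ω | X (t + 2) ω = B}) =
      P {ω | hist X (t + 1) ω ∈ S ∧ X (t + 1) ω = A} * launch ν A B := by
  set S' : Set (Fin (t + 1) → Finset (Site d)) := {g | g ∈ S ∧ g (Fin.last t) = A} with hS'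
  have e0 : {ω | hist X (t + 1) ω ∈ S ∧ X (t + 1) ω = A} = {ω | hist X (t + 1) ω ∈ S'} := by
    ext ω
    simp only [hS', Set.mem_ofPred_eq]
    rfl
  have e1 : {ω | hist X (t + 1) ω ∈ S'} = ⋃ g : S', {ω | hist X (t + 1) ω = g.1} := by
    ext ω
    simp
  have e2 : {ω | hist X (t + 1) ω ∈ S'} ∩ {ω | X (t + 2) ω = B} =
      ⋃ g : S', ({ω | hist X (t + 1) ω = g.1} ∩ {ω | X (t + 2) ω = B}) := by
    rw [e1, Set.iUnion_inter]
  have hm : ∀ g : S', MeasurableSet {ω | hist X (t + 1) ω = g.1} := fun g =>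
    meas_hist h (t + 1) {g.1}
  have hd : Pairwise (Function.onFun Disjoint fun g : S' => {ω | hist X (t + 1) ω = g.1}) := by
    intro g g' hg
    rw [Function.onFun, Set.disjoint_left]
    intro ω h1 h2
    apply hg
    apply Subtype.ext
    have h1' : hist X (t + 1) ω = g.1 := h1
    have h2' : hist X (t + 1) ω = g'.1 := h2
    rw [← h1', ← h2']
  rw [e0, e2, e1, measure_iUnion _ (fun g => (hm g).inter (h.meas _ _)), measure_iUnion hd hm,
    ← ENNReal.tsum_mul_right]
  · refine tsum_congr fun g => ?_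
    rw [markov_one h, g.2.2]
  · intro g g' hg
    exact (hd hg).mono Set.inter_subset_left Set.inter_subset_left

/-- All aggregates up to launch `n` are in the domains. -/
def AI (X : ℕ → Ω → Finset (Site d)) (D : ℕ → Set (Site d)) (n : ℕ) (ω : Ω) : Prop :=
  ∀ s, 1 ≤ s → s ≤ n → ((X (s + 1) ω : Finset (Site d)) : Set (Site d)) ⊆ D s

theorem AI_iff (D : ℕ → Set (Site d)) (n : ℕ) (ω : Ω) : AI X D n ω ↔ hist X (n + 1) ω ∈
    {g : Fin (n + 1) → Finset (Site d) |
      ∀ s (hs : s < n + 1), 1 ≤ s → ((g ⟨s, hs⟩ : Finset (Site d)) : Set (Site d)) ⊆ D s} := by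
  simp only [Set.mem_ofPred_eq]
  constructor
  · intro hh s hs h1
    exact hh s h1 (by omega)
  · intro hh s h1 h2
    exact hh s (by omega) h1

theorem meas_AI (h : IsBIDLA ν P X) (D : ℕ → Set (Site d)) (n : ℕ) :
    MeasurableSet {ω | AI X D n ω} := by
  simp only [AI_iff]
  exact meas_hist h _ _

/-- A countable decomposition according to the value of `X t`. -/
theorem decomp (h : IsBIDLA ν P X) (t : ℕ) (E : Ω → Prop) (hE : MeasurableSet {ω | E ω})
    (G : Finset (Site d) → Prop) :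
    P {ω | E ω ∧ G (X t ω)} = ∑' B, ind G B * P {ω | E ω ∧ X t ω = B} := by
  classical
  have e : {ω | E ω ∧ G (X t ω)} = ⋃ B : {B : Finset (Site d) // G B},
      {ω | E ω ∧ X t ω = B.1} := by
    ext ω
    simp only [Set.mem_ofPred_eq, Set.mem_iUnion, Subtype.exists, exists_prop]
    constructor
    · rintro ⟨h1, h2⟩
      exact ⟨X t ω, h2, h1, rfl⟩
    · rintro ⟨B, h1, h2, h3⟩
      exact ⟨h2, by rw [h3]; exact h1⟩
  have hd : Pairwise (Function.onFun Disjoint fun B : {B : Finset (Site d) // G B} =>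
      {ω | E ω ∧ X t ω = B.1}) := by
    intro B B' hB
    rw [Function.onFun, Set.disjoint_left]
    intro ω h1 h2
    apply hB
    apply Subtype.ext
    have h1' : X t ω = B.1 := h1.2
    have h2' : X t ω = B'.1 := h2.2
    rw [← h1', ← h2']
  rw [e, measure_iUnion hd fun B => (hE.inter (h.meas t B.1))]
  have e2 : ∀ B : Finset (Site d), ind G B * P {ω | E ω ∧ X t ω = B} =
      Set.indicator {B | G B} (fun B => P {ω | E ω ∧ X t ω = B}) B := by
    intro B
    unfold ind
    by_cases hB : G B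
    · rw [if_pos hB, one_mul, Set.indicator_of_mem (by exact hB)]
    · rw [if_neg hB, zero_mul, Set.indicator_of_notMem (by exact hB)]
  rw [tsum_congr e2]
  exact tsum_subtype {B | G B} (fun B => P {ω | E ω ∧ X t ω = B})

theorem W_zero (h : IsBIDLA ν P X) (D : ℕ → Set (Site d)) (B : Finset (Site d)) :
    P {ω | AI X D 0 ω ∧ X 1 ω = B} = Eg ν D 0 (ind fun C => C = B) := by
  classical
  have := h.prob
  have e : {ω | AI X D 0 ω ∧ X 1 ω = B} = {ω | X 1 ω = B} := by
    ext ω
    simp only [Set.mem_ofPred_eq, and_iff_right_iff_imp]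
    intro _ s h1 h2
    omega
  rw [e]
  show _ = ind (fun C => C = B) {0}
  unfold ind
  by_cases hB : ({0} : Finset (Site d)) = B
  · rw [if_pos hB, ← hB]
    exact h.start
  · rw [if_neg hB]
    have h1 : {ω | X 1 ω = B} ⊆ {ω | X 1 ω = {0}}ᶜ := by
      intro ω hω hω'
      apply hB
      have a1 : X 1 ω = B := hω
      have a2 : X 1 ω = {0} := hω'
      rw [← a1, ← a2]
    refine measure_mono_null h1 ?_
    rw [prob_compl_eq_zero_iff (h.meas 1 _)]
    exact h.start

theorem W_succ (h : IsBIDLA ν P X) (D : ℕ → Set (Site d)) (n : ℕ) (B : Finset (Site d)) :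
    P {ω | AI X D (n + 1) ω ∧ X (n + 2) ω = B} =
      ∑' A, (ind (fun B : Finset (Site d) => (B : Set (Site d)) ⊆ D (n + 1)) B * launch ν A B) *
        P {ω | AI X D n ω ∧ X (n + 1) ω = A} := by
  classical
  by_cases hB : (B : Set (Site d)) ⊆ D (n + 1)
  · have e : {ω | AI X D (n + 1) ω ∧ X (n + 2) ω = B} =
        ⋃ A : Finset (Site d), ({ω | AI X D n ω ∧ X (n + 1) ω = A} ∩ {ω | X (n + 2) ω = B}) := by
      ext ω
      simp only [Set.mem_ofPred_eq, Set.mem_iUnion, Set.mem_inter_iff]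
      constructor
      · rintro ⟨h1, h2⟩
        exact ⟨X (n + 1) ω, ⟨fun s a b => h1 s a (by omega), rfl⟩, h2⟩
      · rintro ⟨A, ⟨h1, _⟩, h2⟩
        refine ⟨fun s a b => ?_, h2⟩
        rcases Nat.lt_or_ge s (n + 1) with h3 | h3
        · exact h1 s a (by omega)
        · have : s = n + 1 := by omega
          rw [this, show n + 1 + 1 = n + 2 from rfl, h2]
          exact hB
    have hd : Pairwise (Function.onFun Disjoint fun A : Finset (Site d) =>
        ({ω | AI X D n ω ∧ X (n + 1) ω = A} ∩ {ω | X (n + 2) ω = B})) := by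
      intro A A' hA
      rw [Function.onFun, Set.disjoint_left]
      intro ω h1 h2
      apply hA
      have h1' : X (n + 1) ω = A := h1.1.2
      have h2' : X (n + 1) ω = A' := h2.1.2
      rw [← h1', ← h2']
    rw [e, measure_iUnion hd fun A => (((meas_AI h D n).inter (h.meas _ _)).inter (h.meas _ _))]
    refine tsum_congr fun A => ?_
    have e3 : {ω | AI X D n ω ∧ X (n + 1) ω = A} = {ω | hist X (n + 1) ω ∈
        {g : Fin (n + 1) → Finset (Site d) |
      ∀ s (hs : s < n + 1), 1 ≤ s → ((g ⟨s, hs⟩ : Finset (Site d)) : Set (Site d)) ⊆ D s} ∧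
        X (n + 1) ω = A} := by
      ext ω
      simp only [AI_iff, Set.mem_ofPred_eq]
    rw [e3, markov_set h, mul_comm]
    congr 1
    unfold ind
    rw [if_pos hB, one_mul]
  · have e : {ω | AI X D (n + 1) ω ∧ X (n + 2) ω = B} = ∅ := by
      ext ω
      simp only [Set.mem_ofPred_eq, Set.mem_empty_iff_false, iff_false, not_and]
      intro h1 h2
      apply hB
      rw [← h2]
      exact h1 (n + 1) (by omega) le_rfl
    rw [e, measure_empty]
    symm
    rw [ENNReal.tsum_eq_zero]
    intro A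
    unfold ind
    rw [if_neg hB, zero_mul, zero_mul]

end

theorem KD_mul {d : ℕ} {ν : PMF ℕ} (hd : 3 ≤ d) (hB : S_BAS) (D : Set (Site d))
    (g : Finset (Site d) → ℝ≥0∞) (A B : Finset (Site d)) :
    KD ν D (fun C => g C * ind (fun C' => C' = B) C) A = g B * KD ν D (ind fun C => C = B) A := by
  classical
  rw [(hB d ν hd).2.2.2.1 D (fun C => g C * ind (fun C' => C' = B) C) A, tsum_eq_single B]
  · simp [ind]
  · intro B' hB'
    simp [ind, hB']

theorem KD_add {d : ℕ} {ν : PMF ℕ} (hd : 3 ≤ d) (hB : S_BAS) (D : Set (Site d))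
    (f g : Finset (Site d) → ℝ≥0∞) (A : Finset (Site d)) :
    KD ν D (fun C => f C + g C) A = KD ν D f A + KD ν D g A := by
  rw [(hB d ν hd).2.2.2.1 D (fun C => f C + g C) A, (hB d ν hd).2.2.2.1 D f A,
    (hB d ν hd).2.2.2.1 D g A, ← ENNReal.tsum_add]
  exact tsum_congr fun B => by rw [add_mul]

theorem Eg_add {d : ℕ} {ν : PMF ℕ} (hd : 3 ≤ d) (hB : S_BAS) (D : ℕ → Set (Site d))
    (n : ℕ) (f g : Finset (Site d) → ℝ≥0∞) :
    Eg ν D n (fun C => f C + g C) = Eg ν D n f + Eg ν D n g := by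
  rw [(hB d ν hd).2.2.2.2.2.2 D (fun C => f C + g C) n, (hB d ν hd).2.2.2.2.2.2 D f n,
    (hB d ν hd).2.2.2.2.2.2 D g n, ← ENNReal.tsum_add]
  exact tsum_congr fun B => by rw [add_mul]

theorem W_eq {d : ℕ} [NeZero d] {ν : PMF ℕ} {Ω : Type} [MeasurableSpace Ω] {P : Measure Ω}
    {X : ℕ → Ω → Finset (Site d)} (hd : 3 ≤ d) (hB : S_BAS) (hU : C_UNI) (h : IsBIDLA ν P X)
    (D : ℕ → Set (Site d)) (n : ℕ) : ∀ B : Finset (Site d),
    P {ω | AI X D n ω ∧ X (n + 1) ω = B} = Eg ν D n (ind fun C => C = B) := by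
  classical
  induction n with
  | zero => exact fun B => W_zero h D B
  | succ n ih =>
    intro B
    rw [W_succ h D n B]
    show _ = Eg ν D n fun A => KD ν (D (n + 1)) (fun C =>
      ind (fun B : Finset (Site d) => (B : Set (Site d)) ⊆ D (n + 1)) C *
        ind (fun C => C = B) C) A
    rw [(hB d ν hd).2.2.2.2.2.2 D _ n]
    refine tsum_congr fun A => ?_
    rw [ih A, KD_mul hd hB]
    congr 1
    by_cases hBD : (B : Set (Site d)) ⊆ D (n + 1)
    · rw [hU d ν (D (n + 1)) A B hd hBD]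
    · simp [ind, hBD]

theorem t_CHN : S_CHN := by
  classical
  intro hB hT hU d _ ν Ω mΩ P X R n G hd hν h hR
  have := h.prob
  obtain ⟨D, hD⟩ : ∃ D : ℕ → Set (Site d), D = fun s => Bl d (R s) := ⟨_, rfl⟩
  have hDs : ∀ s, D s = Bl d (R s) := fun s => by rw [hD]
  have key : ∀ (G : Finset (Site d) → Prop) (n : ℕ), P {ω | AI X D n ω ∧ G (X (n + 1) ω)} =
      Eg ν D n (ind G) := by
    intro G n
    rw [decomp h (n + 1) (AI X D n) (meas_AI h D n) G, (hB d ν hd).2.2.2.2.2.2 D (ind G) n]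
    exact tsum_congr fun B => by rw [W_eq hd hB hU h D n B]
  have hone : ∀ s A, KD ν (D s) (ind fun B : Finset (Site d) => (B : Set (Site d)) ⊆ D s) A +
      KD ν (D s) (ind fun B : Finset (Site d) => ¬ (B : Set (Site d)) ⊆ D s) A = 1 := by
    intro s A
    rw [← KD_add hd hB]
    have e : (fun C : Finset (Site d) => ind (fun B : Finset (Site d) => (B : Set (Site d)) ⊆ D s) C
        + ind (fun B : Finset (Site d) => ¬ (B : Set (Site d)) ⊆ D s) C) = fun _ => 1 := by
      funext C
      unfold ind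
      by_cases hC : (C : Set (Site d)) ⊆ D s
      · simp [hC]
      · simp [hC]
    rw [e, hDs s]
    exact hT d ν (R s) A hd hν (hR s)
  have htel : ∀ n, Eg ν D n (fun _ => 1) + ∑ s ∈ range n, Eg ν D s (fun A => KD ν (D (s + 1))
        (ind fun B : Finset (Site d) => ¬ (B : Set (Site d)) ⊆ D (s + 1)) A) = 1 := by
    intro n
    induction n with
    | zero => simp [Eg]
    | succ n ih =>
      rw [sum_range_succ, add_comm (∑ s ∈ range n, _), ← add_assoc]
      have e1 : Eg ν D (n + 1) (fun _ => 1) + Eg ν D n (fun A => KD ν (D (n + 1))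
          (ind fun B : Finset (Site d) => ¬ (B : Set (Site d)) ⊆ D (n + 1)) A) =
          Eg ν D n (fun _ => 1) := by
        have e2 : Eg ν D (n + 1) (fun _ => 1) = Eg ν D n (fun A => KD ν (D (n + 1))
            (ind fun B : Finset (Site d) => (B : Set (Site d)) ⊆ D (n + 1)) A) := by
          show Eg ν D n (fun A => KD ν (D (n + 1)) (fun C =>
            ind (fun B : Finset (Site d) => (B : Set (Site d)) ⊆ D (n + 1)) C * 1) A) = _
          simp only [mul_one]
        rw [e2, ← Eg_add hd hB]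
        congr 1
        funext A
        exact hone (n + 1) A
      rw [e1]
      exact ih
  have hcompl : P {ω | ¬ AI X D n ω} ≤ ∑ s ∈ range n, Eg ν D s (fun A => KD ν (D (s + 1))
        (ind fun B : Finset (Site d) => ¬ (B : Set (Site d)) ⊆ D (s + 1)) A) := by
    have e1 : {ω | ¬ AI X D n ω} = {ω | AI X D n ω}ᶜ := rfl
    have e2 : P {ω | AI X D n ω} = Eg ν D n (fun _ => 1) := by
      have := key (fun _ => True) n
      have e3 : (ind fun _ : Finset (Site d) => True) = fun _ => 1 := by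
        funext C; simp [ind]
      rw [e3] at this
      rw [← this]
      simp
    rw [e1, prob_compl_eq_one_sub (meas_AI h D n), e2, tsub_le_iff_left, htel n]
  have hfin : P {ω | G (X (n + 1) ω)} ≤ P {ω | AI X D n ω ∧ G (X (n + 1) ω)} +
      P {ω | ¬ AI X D n ω} := by
    refine (measure_mono ?_).trans (measure_union_le _ _)
    intro ω hω
    by_cases hA : AI X D n ω
    · exact Or.inl ⟨hA, hω⟩
    · exact Or.inr hA
  have := hfin.trans (add_le_add (key G n).le hcompl)
  rw [hD] at this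
  exact this

end Pool.Agent.H10.BD
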