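import Mathlib
import Pool.Agent.H3.BI.Stm1

/-!
# Part POT: existence of the Green potential
-/

set_option autoImplicit false

open scoped ENNReal Topology
open Finset MeasureTheory Filter

namespace Pool.Agent.H10.BD

open Pool.Agent.H3.BI

theorem nsq_add_uvec {d : ℕ} (x : Site d) (e : Dir d) :
    nsq (x + uvec e) = nsq x + 2 * (if e.2 then (x e.1 : ℝ) else -(x e.1 : ℝ)) + 1 := by
  unfold nsq uvec
  have h : ∀ i, (((x + (Pi.single e.1 (if e.2 then (1 : ℤ) else -1) : Site d) : Site d) i : ℤ) : ℝ) ^ 2 =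
      (x i : ℝ) ^ 2 + if i = e.1 then
        (2 * (if e.2 then (x e.1 : ℝ) else -(x e.1 : ℝ)) + 1) else 0 := by
    intro i
    rw [Pi.add_apply]
    by_cases hi : i = e.1
    · subst hi
      rw [Pi.single_eq_same, if_pos rfl]
      by_cases h2 : e.2 = true
      · simp only [h2, if_true]; push_cast; ring
      · simp only [h2]; push_cast; simp; ring
    · rw [Pi.single_eq_of_ne hi, if_neg hi]
      push_cast; ring
  rw [sum_congr rfl fun i _ => h i, sum_add_distrib, sum_ite_eq' univ e.1]
  simp only [mem_univ, if_true]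
  ring

theorem PP_nsq {d : ℕ} (hd : 0 < d) (x : Site d) : PP nsq x = nsq x + 1 := by
  unfold PP
  rw [sum_congr rfl fun e _ => nsq_add_uvec x e, Fintype.sum_prod_type]
  simp only [Fintype.sum_bool, if_true, Bool.false_eq_true, if_false]
  have h : ∀ i : Fin d, nsq x + 2 * (x i : ℝ) + 1 + (nsq x + 2 * (-(x i : ℝ)) + 1) =
      2 * (nsq x + 1) := by
    intro i; ring
  rw [sum_congr rfl fun i _ => h i, sum_const, card_univ, Fintype.card_fin, nsmul_eq_mul]
  have : (d : ℝ) ≠ 0 := by exact_mod_cast hd.ne'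
  field_simp

theorem nrm_add_uvec_le {d : ℕ} (x : Site d) (e : Dir d) : nrm (x + uvec e) ≤ nrm x + 1 := by
  have h0 := nrm_nonneg x
  have h1 : |(x e.1 : ℝ)| ≤ nrm x := by
    rw [← Real.sqrt_sq_eq_abs]
    exact Real.sqrt_le_sqrt (Finset.single_le_sum (f := fun i => (x i : ℝ) ^ 2)
      (fun _ _ => sq_nonneg _) (Finset.mem_univ e.1))
  have h2 : nsq (x + uvec e) ≤ (nrm x + 1) ^ 2 := by
    rw [nsq_add_uvec]
    have h3 : (if e.2 then (x e.1 : ℝ) else -(x e.1 : ℝ)) ≤ nrm x := by
      rw [abs_le] at h1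
      split_ifs <;> linarith [h1.1, h1.2]
    have := nrm_sq x
    nlinarith
  unfold nrm at *
  calc Real.sqrt (nsq (x + uvec e)) ≤ Real.sqrt ((Real.sqrt (nsq x) + 1) ^ 2) :=
        Real.sqrt_le_sqrt h2
    _ = Real.sqrt (nsq x) + 1 := Real.sqrt_sq (by positivity)

theorem PP_mono {d : ℕ} {f g : Site d → ℝ} {x : Site d} (h : ∀ e : Dir d, f (x + uvec e) ≤ g (x + uvec e)) :
    PP f x ≤ PP g x := by
  unfold PP
  exact div_le_div_of_nonneg_right (sum_le_sum fun e _ => h e) (by positivity)

open Classical in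
/-- The iteration. -/
noncomputable def it {d : ℕ} (R : ℝ) (q : Site d → ℝ) : ℕ → Site d → ℝ
  | 0 => fun _ => 0
  | n + 1 => fun x => if nrm x ≤ R then PP (it R q n) x + q x else 0

theorem it_mono {d : ℕ} {R : ℝ} {q : Site d → ℝ} (hq : ∀ x, 0 ≤ q x) (n : ℕ) :
    ∀ x, it R q n x ≤ it R q (n + 1) x := by
  induction n with
  | zero =>
    intro x
    show (0 : ℝ) ≤ if nrm x ≤ R then PP (it R q 0) x + q x else 0
    split_ifs
    · have : PP (it R q 0) x = 0 := by simp [PP, it]
      rw [this, zero_add]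
      exact hq x
    · exact le_rfl
  | succ n ih =>
    intro x
    show (if nrm x ≤ R then PP (it R q n) x + q x else 0) ≤
      if nrm x ≤ R then PP (it R q (n + 1)) x + q x else 0
    split_ifs
    · have := PP_mono (x := x) fun e => ih (x + uvec e)
      linarith
    · exact le_rfl

theorem it_le {d : ℕ} (hd : 0 < d) {R M : ℝ} {q : Site d → ℝ} (hM : 0 ≤ M)
    (hq : ∀ x, nrm x ≤ R → q x ≤ M) (n : ℕ) :
    ∀ x, nrm x ≤ R + 1 → it R q n x ≤ M * ((R + 1) ^ 2 - nsq x) := by
  have hpos : ∀ x : Site d, nrm x ≤ R + 1 → 0 ≤ M * ((R + 1) ^ 2 - nsq x) := by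
    intro x hx
    have h0 := nrm_nonneg x
    have h1 := nrm_sq x
    have : nrm x ^ 2 ≤ (R + 1) ^ 2 := by
      apply pow_le_pow_left₀ h0 hx
    apply mul_nonneg hM
    linarith
  induction n with
  | zero => exact fun x hx => hpos x hx
  | succ n ih =>
    intro x hx
    show (if nrm x ≤ R then PP (it R q n) x + q x else 0) ≤ _
    split_ifs with h
    · have h1 : PP (it R q n) x ≤ PP (fun y => M * ((R + 1) ^ 2 - nsq y)) x := by
        apply PP_mono
        intro e
        apply ih
        have := nrm_add_uvec_le x e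
        linarith
      have h2 : PP (fun y => M * ((R + 1) ^ 2 - nsq y)) x = M * ((R + 1) ^ 2 - nsq x) - M := by
        have h3 := PP_nsq hd x
        unfold PP at h3 ⊢
        rw [← mul_sum, sum_sub_distrib, sum_const, card_univ, mul_div_assoc, sub_div, h3]
        have h4 : ((Fintype.card (Dir d) : ℕ) : ℝ) = 2 * d := by
          simp [Fintype.card_prod]; ring
        rw [nsmul_eq_mul, h4]
        have : (d : ℝ) ≠ 0 := by exact_mod_cast hd.ne'
        field_simp
        ring
      have := hq x h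
      linarith
    · exact hpos x hx

theorem t_POT : S_POT := by
  intro d R q hd hR hq
  have hd0 : 0 < d := by omega
  obtain ⟨M, hM0, hM⟩ : ∃ M : ℝ, 0 ≤ M ∧ ∀ x, nrm x ≤ R → q x ≤ M := by
    refine ⟨∑ x ∈ bF d R, q x, sum_nonneg fun x _ => hq x, fun x hx => ?_⟩
    exact single_le_sum (f := q) (fun y _ => hq y) ((mem_bF R x).2 hx)
  have hmono : ∀ x, Monotone fun n => it R q n x := fun x =>
    monotone_nat_of_le_succ fun n => it_mono hq n x
  have hout : ∀ n x, R < nrm x → it R q n x = 0 := by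
    intro n x hx
    cases n with
    | zero => rfl
    | succ n =>
      show (if nrm x ≤ R then PP (it R q n) x + q x else 0) = 0
      rw [if_neg (not_le.2 hx)]
  have hbdd : ∀ x, BddAbove (Set.range fun n => it R q n x) := by
    intro x
    rcases le_or_gt (nrm x) (R + 1) with h | h
    · refine ⟨M * ((R + 1) ^ 2 - nsq x), ?_⟩
      rintro _ ⟨n, rfl⟩
      exact it_le hd0 hM0 hM n x h
    · refine ⟨0, ?_⟩
      rintro _ ⟨n, rfl⟩
      exact (hout n x (by linarith)).le
  have hlim : ∀ x, Tendsto (fun n => it R q n x) atTop (𝓝 (⨆ n, it R q n x)) := fun x =>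
    tendsto_atTop_ciSup (hmono x) (hbdd x)
  refine ⟨fun x => ⨆ n, it R q n x, fun x => ?_, fun x hx => ?_, fun x hx => ?_⟩
  · exact le_ciSup (hbdd x) 0
  · have : (fun n => it R q n x) = fun _ => 0 := by
      funext n; exact hout n x hx
    show (⨆ n, it R q n x) = 0
    rw [this]
    simp
  · have h1 : Tendsto (fun n => it R q (n + 1) x) atTop
        (𝓝 (PP (fun y => ⨆ n, it R q n y) x + q x)) := by
      have e : (fun n => it R q (n + 1) x) = fun n => PP (it R q n) x + q x := by
        funext n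
        show (if nrm x ≤ R then PP (it R q n) x + q x else 0) = _
        rw [if_pos hx]
      rw [e]
      unfold PP
      exact ((tendsto_finsetSum _ fun e _ => hlim (x + uvec e)).div_const _).add_const _
    have h2 := (hlim x).comp (tendsto_add_atTop_nat 1)
    have h3 := tendsto_nhds_unique h1 h2
    show (⨆ n, it R q n x) - PP (fun y => ⨆ n, it R q n y) x = q x
    rw [← h3]
    ring

end Pool.Agent.H10.BD
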